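import Mathlib
import Pool.Agent.K1H12.SW.Stm

set_option autoImplicit false

/-!
# Two out of three for modules of type FF and FP
-/

namespace Pool.Agent.K1H16.HE

open Pool.Agent.K1H12.SW

section

variable {R : Type} [Ring R]

/-- the properties of a class of projective modules that are used -/
structure Good (C : ∀ (P : Type) [AddCommGroup P] [Module R P], Prop) : Prop where
  iso : ∀ (P Q : Type) [AddCommGroup P] [Module R P] [AddCommGroup Q] [Module R Q],
    (P ≃ₗ[R] Q) → C P → C Q
  prod : ∀ (P Q : Type) [AddCommGroup P] [Module R P] [AddCommGroup Q] [Module R Q],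
    C P → C Q → C (P × Q)
  proj : ∀ (P : Type) [AddCommGroup P] [Module R P], C P → Module.Projective R P
  zero : ∀ (P : Type) [AddCommGroup P] [Module R P], Subsingleton P → C P
  cancel : ∀ (P Q : Type) [AddCommGroup P] [Module R P] [AddCommGroup Q] [Module R Q],
    C (P × Q) → C Q → C P

theorem inj_cod {F : Type} [AddCommGroup F] [Module R F] (p q : Submodule R F)
    (h : ∀ x : p, p.subtype x ∈ q) : Function.Injective (p.subtype.codRestrict q h) := by
  intro x y hxy
  have h8 := congrArg Subtype.val hxy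
  exact Subtype.ext h8

/-- a short exact sequence ending in a projective module splits -/
theorem splitE {K E P : Type} [AddCommGroup K] [Module R K] [AddCommGroup E] [Module R E]
    [AddCommGroup P] [Module R P] (i : K →ₗ[R] E) (q : E →ₗ[R] P) (hi : Function.Injective i)
    (hq : Function.Surjective q) (he : Function.Exact i q) (hP : Module.Projective R P) :
    Nonempty ((K × P) ≃ₗ[R] E) := by
  obtain ⟨s, hs⟩ := Module.projective_lifting_property q LinearMap.id hq
  have hs' : ∀ p, q (s p) = p := fun p => by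
    have := LinearMap.congr_fun hs p
    simpa using this
  have hqi : ∀ k, q (i k) = 0 := fun k => (he (i k)).2 ⟨k, rfl⟩
  refine ⟨LinearEquiv.ofBijective (LinearMap.coprod i s) ⟨?_, ?_⟩⟩
  · rw [injective_iff_map_eq_zero]
    rintro ⟨k, p⟩ h
    rw [LinearMap.coprod_apply] at h
    have h1 : p = 0 := by
      have := congrArg q h
      rw [map_add, hqi, hs', zero_add, map_zero] at this
      exact this
    subst h1
    have h2 : k = 0 := by
      apply hi
      simpa using h
    rw [h2]
    rfl
  · intro x
    have h1 : q (x - s (q x)) = 0 := by rw [map_sub, hs', sub_self]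
    obtain ⟨k, hk⟩ := (he _).1 h1
    refine ⟨(k, q x), ?_⟩
    rw [LinearMap.coprod_apply, hk]
    abel

variable {C : ∀ (P : Type) [AddCommGroup P] [Module R P], Prop}

theorem res_iso (hC : Good C) : ∀ (n : ℕ) (M N : Type) [AddCommGroup M] [Module R M]
    [AddCommGroup N] [Module R N], (M ≃ₗ[R] N) → Res R C n M → Res R C n N := by
  intro n
  induction n with
  | zero => intro M N _ _ _ _ e h; exact hC.iso M N e h
  | succ n ih =>
    intro M N _ _ _ _ e h
    obtain ⟨P, _, _, f, h1, h2, h3⟩ := h
    refine ⟨P, _, _, e.toLinearMap ∘ₗ f, h1, e.surjective.comp h2, ?_⟩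
    refine ih _ _ (LinearEquiv.ofEq _ _ ?_) h3
    ext x
    simp

/-- build a resolution from a short exact sequence -/
theorem res_mk (hC : Good C) (n : ℕ) {K P M : Type} [AddCommGroup K] [Module R K]
    [AddCommGroup P] [Module R P] [AddCommGroup M] [Module R M] (i : K →ₗ[R] P) (f : P →ₗ[R] M)
    (hi : Function.Injective i) (hf : Function.Surjective f) (he : Function.Exact i f)
    (hP : C P) (hK : Res R C n K) : Res R C (n + 1) M := by
  refine ⟨P, _, _, f, hP, hf, ?_⟩
  refine res_iso hC n _ _ ((LinearEquiv.ofInjective i hi).trans (LinearEquiv.ofEq _ _ ?_)) hK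
  exact (LinearMap.exact_iff.1 he).symm

theorem res_succ (hC : Good C) : ∀ (n : ℕ) (M : Type) [AddCommGroup M] [Module R M],
    Res R C n M → Res R C (n + 1) M := by
  intro n
  induction n with
  | zero =>
    intro M _ _ h
    refine ⟨M, _, _, LinearMap.id, h, Function.surjective_id, ?_⟩
    apply hC.zero
    rw [LinearMap.ker_id]
    infer_instance
  | succ n ih =>
    intro M _ _ h
    obtain ⟨P, _, _, f, h1, h2, h3⟩ := h
    exact ⟨P, _, _, f, h1, h2, ih _ h3⟩

theorem res_le (hC : Good C) {n m : ℕ} (h : n ≤ m) (M : Type) [AddCommGroup M] [Module R M]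
    (hM : Res R C n M) : Res R C m M := by
  induction h with
  | refl => exact hM
  | step _ ih => exact res_succ hC _ _ ih

/-- (1) cancellation -/
theorem res_cancel (hC : Good C) (n : ℕ) (K P : Type) [AddCommGroup K] [Module R K]
    [AddCommGroup P] [Module R P] (hP : C P) (h : Res R C n (K × P)) : Res R C n K := by
  cases n with
  | zero => exact hC.cancel K P h hP
  | succ n =>
    obtain ⟨F, _, _, g, h1, h2, h3⟩ := h
    set q : F →ₗ[R] P := LinearMap.snd R K P ∘ₗ g with hq
    have hqs : Function.Surjective q := by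
      intro p
      obtain ⟨x, hx⟩ := h2 (0, p)
      exact ⟨x, by simp [hq, hx]⟩
    obtain ⟨e⟩ := splitE (LinearMap.ker q).subtype q Subtype.val_injective hqs
      (LinearMap.exact_iff.2 (by simp)) (hC.proj P hP)
    have hker : C (LinearMap.ker q) := hC.cancel _ P (hC.iso _ _ e.symm h1) hP
    refine res_mk hC n (K := LinearMap.ker g)
      ((LinearMap.ker g).subtype.codRestrict (LinearMap.ker q) (fun x => ?_))
      (LinearMap.fst R K P ∘ₗ g ∘ₗ (LinearMap.ker q).subtype) ?_ ?_ ?_ hker h3
    · have := x.2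
      rw [LinearMap.mem_ker] at this
      simp [hq, this]
    · exact inj_cod _ _ _
    · intro k
      obtain ⟨x, hx⟩ := h2 (k, 0)
      exact ⟨⟨x, by simp [hq, hx]⟩, by simp [hx]⟩
    · rintro ⟨x, hx⟩
      constructor
      · intro h
        have h5 : g x = 0 := by
          apply Prod.ext
          · simpa using h
          · simpa [hq] using hx
        exact ⟨⟨x, h5⟩, Subtype.ext rfl⟩
      · rintro ⟨⟨y, hy⟩, hyx⟩
        have h6 : y = x := congrArg Subtype.val hyx
        subst h6
        rw [LinearMap.mem_ker] at hy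
        change (g y).1 = 0
        rw [hy]
        rfl

/-- (2) adding a module of the class -/
theorem res_add (hC : Good C) (n : ℕ) (K P : Type) [AddCommGroup K] [Module R K]
    [AddCommGroup P] [Module R P] (hP : C P) (h : Res R C n K) : Res R C n (K × P) := by
  cases n with
  | zero => exact hC.prod K P h hP
  | succ n =>
    obtain ⟨F, _, _, g, h1, h2, h3⟩ := h
    refine res_mk hC n (K := LinearMap.ker g) (LinearMap.inl R F P ∘ₗ (LinearMap.ker g).subtype)
      (LinearMap.prodMap g LinearMap.id) ?_ ?_ ?_ (hC.prod F P h1 hP) h3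
    · exact LinearMap.inl_injective.comp Subtype.val_injective
    · rintro ⟨k, p⟩
      obtain ⟨x, hx⟩ := h2 k
      exact ⟨(x, p), by simp [hx]⟩
    · rintro ⟨x, p⟩
      constructor
      · intro h
        rw [LinearMap.prodMap_apply, Prod.mk_eq_zero] at h
        exact ⟨⟨x, h.1⟩, by simp; exact h.2.symm⟩
      · rintro ⟨⟨y, hy⟩, hyx⟩
        rw [LinearMap.mem_ker] at hy
        simp only [LinearMap.comp_apply, Submodule.subtype_apply, LinearMap.inl_apply,
          Prod.mk.injEq] at hyx
        rw [LinearMap.prodMap_apply, ← hyx.1, ← hyx.2, hy]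
        simp

/-- (3) Schanuel -/
theorem schanuel (hC : Good C) (n : ℕ) (M P' : Type) [AddCommGroup M] [Module R M]
    [AddCommGroup P'] [Module R P'] (f' : P' →ₗ[R] M) (hf' : Function.Surjective f') (hP' : C P')
    (h : Res R C (n + 1) M) : Res R C n (LinearMap.ker f') := by
  obtain ⟨P, _, _, f, h1, h2, h3⟩ := h
  set d : (P × P') →ₗ[R] M := LinearMap.coprod f (-f') with hd
  have hdm : ∀ x : P × P', x ∈ LinearMap.ker d ↔ f x.1 = f' x.2 := by
    intro x
    rw [LinearMap.mem_ker, hd, LinearMap.coprod_apply, LinearMap.neg_apply, ← sub_eq_add_neg,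
      sub_eq_zero]
  -- the pull-back is `ker f × P'`
  obtain ⟨e1⟩ := splitE (K := LinearMap.ker f) (E := LinearMap.ker d) (P := P')
    ((LinearMap.inl R P P' ∘ₗ (LinearMap.ker f).subtype).codRestrict (LinearMap.ker d)
      (fun x => by rw [hdm]; simp))
    (LinearMap.snd R P P' ∘ₗ (LinearMap.ker d).subtype)
    (by
      intro x y hxy
      have := congrArg Subtype.val hxy
      simp only [LinearMap.codRestrict_apply, LinearMap.comp_apply, Submodule.subtype_apply,
        LinearMap.inl_apply, Prod.mk.injEq, and_true] at this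
      exact Subtype.ext this)
    (by
      intro p
      obtain ⟨x, hx⟩ := h2 (f' p)
      exact ⟨⟨(x, p), (hdm _).2 hx⟩, rfl⟩)
    (by
      rintro ⟨⟨x, p⟩, hx⟩
      rw [hdm] at hx
      simp only [LinearMap.comp_apply, Submodule.subtype_apply, LinearMap.snd_apply]
      constructor
      · rintro rfl
        exact ⟨⟨x, by rw [LinearMap.mem_ker]; simpa using hx⟩, rfl⟩
      · rintro ⟨y, hy⟩
        have := congrArg (fun z => (Subtype.val z).2) hy
        simpa using this.symm)
    (hC.proj P' hP')
  obtain ⟨e2⟩ := splitE (K := LinearMap.ker f') (E := LinearMap.ker d) (P := P)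
    ((LinearMap.inr R P P' ∘ₗ (LinearMap.ker f').subtype).codRestrict (LinearMap.ker d)
      (fun x => by rw [hdm]; simp))
    (LinearMap.fst R P P' ∘ₗ (LinearMap.ker d).subtype)
    (by
      intro x y hxy
      have := congrArg Subtype.val hxy
      simp only [LinearMap.codRestrict_apply, LinearMap.comp_apply, Submodule.subtype_apply,
        LinearMap.inr_apply, Prod.mk.injEq, true_and] at this
      exact Subtype.ext this)
    (by
      intro p
      obtain ⟨x, hx⟩ := hf' (f p)
      exact ⟨⟨(p, x), (hdm _).2 hx.symm⟩, rfl⟩)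
    (by
      rintro ⟨⟨p, x⟩, hx⟩
      rw [hdm] at hx
      simp only [LinearMap.comp_apply, Submodule.subtype_apply, LinearMap.fst_apply]
      constructor
      · rintro rfl
        exact ⟨⟨x, by rw [LinearMap.mem_ker]; simpa using hx.symm⟩, rfl⟩
      · rintro ⟨y, hy⟩
        have := congrArg (fun z => (Subtype.val z).1) hy
        simpa using this.symm)
    (hC.proj P h1)
  exact res_cancel hC n _ P h1 (res_iso hC n _ _ (e1.trans e2.symm) (res_add hC n _ P' hP' h3))

/-- (4) horseshoe -/
theorem horseshoe (hC : Good C) : ∀ (n : ℕ) (A B D : Type) [AddCommGroup A] [Module R A]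
    [AddCommGroup B] [Module R B] [AddCommGroup D] [Module R D] (f : A →ₗ[R] B) (g : B →ₗ[R] D),
    Function.Injective f → Function.Surjective g → Function.Exact f g →
    Res R C n A → Res R C n D → Res R C n B := by
  intro n
  induction n with
  | zero =>
    intro A B D _ _ _ _ _ _ f g hf hg he hA hD
    obtain ⟨e⟩ := splitE f g hf hg he (hC.proj D hD)
    exact hC.iso _ _ e (hC.prod A D hA hD)
  | succ n ih =>
    intro A B D _ _ _ _ _ _ f g hf hg he hA hD
    obtain ⟨P', _, _, f1, a1, a2, a3⟩ := hA
    obtain ⟨P'', _, _, f2, b1, b2, b3⟩ := hD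
    have := hC.proj P'' b1
    obtain ⟨t, ht⟩ := Module.projective_lifting_property g f2 hg
    have ht' : ∀ p, g (t p) = f2 p := fun p => LinearMap.congr_fun ht p
    have hgf : ∀ a, g (f a) = 0 := fun a => (he (f a)).2 ⟨a, rfl⟩
    set c : (P' × P'') →ₗ[R] B := LinearMap.coprod (f ∘ₗ f1) t with hc
    have hcm : ∀ x : P' × P'', x ∈ LinearMap.ker c ↔ f (f1 x.1) + t x.2 = 0 := by
      intro x
      rw [LinearMap.mem_ker, hc, LinearMap.coprod_apply, LinearMap.comp_apply]
    refine ⟨P' × P'', _, _, c, hC.prod _ _ a1 b1, ?_, ?_⟩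
    · intro b
      obtain ⟨p'', hp''⟩ := b2 (g b)
      obtain ⟨a, ha⟩ := (he (b - t p'')).1 (by rw [map_sub, ht', hp'', sub_self])
      obtain ⟨p', hp'⟩ := a2 a
      refine ⟨(p', p''), ?_⟩
      rw [hc, LinearMap.coprod_apply, LinearMap.comp_apply, hp', ha]
      abel
    · refine ih (LinearMap.ker f1) (LinearMap.ker c) (LinearMap.ker f2)
        ((LinearMap.inl R P' P'' ∘ₗ (LinearMap.ker f1).subtype).codRestrict (LinearMap.ker c)
          (fun x => by
            rw [hcm]
            have := x.2
            rw [LinearMap.mem_ker] at this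
            simp [this]))
        ((LinearMap.snd R P' P'' ∘ₗ (LinearMap.ker c).subtype).codRestrict (LinearMap.ker f2)
          (fun x => by
            have := x.2
            rw [hcm] at this
            have h5 := congrArg g this
            rw [map_add, hgf, zero_add, map_zero, ht'] at h5
            rw [LinearMap.mem_ker]
            exact h5)) ?_ ?_ ?_ a3 b3
      · intro x y hxy
        have := congrArg Subtype.val hxy
        simp only [LinearMap.codRestrict_apply, LinearMap.comp_apply, Submodule.subtype_apply,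
          LinearMap.inl_apply, Prod.mk.injEq, and_true] at this
        exact Subtype.ext this
      · rintro ⟨p'', hp''⟩
        rw [LinearMap.mem_ker] at hp''
        obtain ⟨a, ha⟩ := (he (t p'')).1 (by rw [ht', hp''])
        obtain ⟨p', hp'⟩ := a2 a
        refine ⟨⟨(-p', p''), ?_⟩, rfl⟩
        rw [hcm]
        simp [hp', ha]
      · rintro ⟨⟨p', p''⟩, hx⟩
        rw [hcm] at hx
        constructor
        · intro h
          have h5 : p'' = 0 := by
            have := congrArg Subtype.val h
            simpa using this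
          subst h5
          refine ⟨⟨p', ?_⟩, rfl⟩
          rw [LinearMap.mem_ker]
          apply hf
          simpa using hx
        · rintro ⟨y, hy⟩
          have := congrArg (fun z => (Subtype.val z).2) hy
          apply Subtype.ext
          simpa using this.symm

/-- (5) the quotient -/
theorem quot (hC : Good C) (A B D : Type) [AddCommGroup A] [Module R A]
    [AddCommGroup B] [Module R B] [AddCommGroup D] [Module R D] (f : A →ₗ[R] B) (g : B →ₗ[R] D)
    (hf : Function.Injective f) (hg : Function.Surjective g) (he : Function.Exact f g)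
    (hA : ∃ n, Res R C n A) (hB : ∃ n, Res R C n B) : ∃ n, Res R C n D := by
  obtain ⟨n1, hA⟩ := hA
  obtain ⟨n2, hB⟩ := hB
  have hA' := res_le hC (le_max_left n1 n2) A hA
  have hB' := res_succ hC _ B (res_le hC (le_max_right n1 n2) B hB)
  set n := max n1 n2
  have hk : Res R C n (LinearMap.ker g) :=
    res_iso hC n _ _ ((LinearEquiv.ofInjective f hf).trans
      (LinearEquiv.ofEq _ _ (LinearMap.exact_iff.1 he).symm)) hA'
  obtain ⟨P, _, _, p, h1, h2, h3⟩ := hB'
  refine ⟨n + 1, P, _, _, g ∘ₗ p, h1, hg.comp h2, ?_⟩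
  refine horseshoe hC n (LinearMap.ker p) (LinearMap.ker (g ∘ₗ p)) (LinearMap.ker g)
    ((LinearMap.ker p).subtype.codRestrict _ (fun x => by
      have := x.2
      rw [LinearMap.mem_ker] at this
      simp [this]))
    ((p ∘ₗ (LinearMap.ker (g ∘ₗ p)).subtype).codRestrict _ (fun x => by
      have := x.2
      rw [LinearMap.mem_ker] at this
      rw [LinearMap.mem_ker]
      exact this)) ?_ ?_ ?_ h3 hk
  · exact inj_cod _ _ _
  · rintro ⟨b, hb⟩
    obtain ⟨x, hx⟩ := h2 b
    rw [LinearMap.mem_ker] at hb
    refine ⟨⟨x, ?_⟩, ?_⟩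
    · rw [LinearMap.mem_ker, LinearMap.comp_apply, hx, hb]
    · apply Subtype.ext
      simpa using hx
  · rintro ⟨x, hx⟩
    constructor
    · intro h
      have h5 : p x = 0 := by
        have := congrArg Subtype.val h
        simpa using this
      exact ⟨⟨x, h5⟩, rfl⟩
    · rintro ⟨y, hy⟩
      have h6 : (y : P) = x := congrArg Subtype.val hy
      subst h6
      have := y.2
      rw [LinearMap.mem_ker] at this
      exact Subtype.ext this

/-- (6) the kernel -/
theorem kern (hC : Good C) (A B D : Type) [AddCommGroup A] [Module R A]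
    [AddCommGroup B] [Module R B] [AddCommGroup D] [Module R D] (f : A →ₗ[R] B) (g : B →ₗ[R] D)
    (hf : Function.Injective f) (hg : Function.Surjective g) (he : Function.Exact f g)
    (hB : ∃ n, Res R C n B) (hD : ∃ n, Res R C n D) : ∃ n, Res R C n A := by
  obtain ⟨n1, hB⟩ := hB
  obtain ⟨n2, hD⟩ := hD
  have hB' := res_succ hC _ B hB
  have hD' := res_succ hC _ D hD
  obtain ⟨P, _, _, p, h1, h2, h3⟩ := hB'
  have hK2 : Res R C n2 (LinearMap.ker (g ∘ₗ p)) :=
    schanuel hC n2 D P (g ∘ₗ p) (hg.comp h2) h1 hD'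
  obtain ⟨n, hn⟩ := quot hC (LinearMap.ker p) (LinearMap.ker (g ∘ₗ p)) (LinearMap.ker g)
    ((LinearMap.ker p).subtype.codRestrict _ (fun x => by
      have := x.2
      rw [LinearMap.mem_ker] at this
      simp [this]))
    ((p ∘ₗ (LinearMap.ker (g ∘ₗ p)).subtype).codRestrict _ (fun x => by
      have := x.2
      rw [LinearMap.mem_ker] at this
      rw [LinearMap.mem_ker]
      exact this))
    (inj_cod _ _ _)
    (by
      rintro ⟨b, hb⟩
      obtain ⟨x, hx⟩ := h2 b
      rw [LinearMap.mem_ker] at hb
      refine ⟨⟨x, ?_⟩, ?_⟩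
      · rw [LinearMap.mem_ker, LinearMap.comp_apply, hx, hb]
      · apply Subtype.ext
        simpa using hx)
    (by
      rintro ⟨x, hx⟩
      constructor
      · intro h
        have h5 : p x = 0 := by
          have := congrArg Subtype.val h
          simpa using this
        exact ⟨⟨x, h5⟩, rfl⟩
      · rintro ⟨y, hy⟩
        have h6 : (y : P) = x := congrArg Subtype.val hy
        subst h6
        have := y.2
        rw [LinearMap.mem_ker] at this
        exact Subtype.ext this)
    ⟨n1, h3⟩ ⟨n2, hK2⟩
  exact ⟨n, res_iso hC n _ _ ((LinearEquiv.ofInjective f hf).trans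
      (LinearEquiv.ofEq _ _ (LinearMap.exact_iff.1 he).symm)).symm hn⟩

theorem tt_of_good (hC : Good C) : TT R (fun M _ _ => ∃ n, Res R C n M) := by
  intro A B D _ _ _ _ _ _ f g hf hg he
  refine ⟨?_, fun hB hD => kern hC A B D f g hf hg he hB hD,
    fun hA hB => quot hC A B D f g hf hg he hA hB⟩
  rintro ⟨n1, hA⟩ ⟨n2, hD⟩
  exact ⟨max n1 n2, horseshoe hC _ A B D f g hf hg he (res_le hC (le_max_left _ _) A hA)
    (res_le hC (le_max_right _ _) D hD)⟩

theorem good_PR : Good (fun (P : Type) [AddCommGroup P] [Module R P] => PR R P) where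
  iso := by
    rintro P Q _ _ _ _ e ⟨h1, h2⟩
    exact ⟨Module.Finite.equiv e, Module.Projective.of_equiv e⟩
  prod := by
    rintro P Q _ _ _ _ ⟨h1, h2⟩ ⟨h3, h4⟩
    exact ⟨inferInstance, inferInstance⟩
  proj := fun P _ _ h => h.2
  zero := by
    intro P _ _ h
    exact ⟨inferInstance, inferInstance⟩
  cancel := by
    rintro P Q _ _ _ _ ⟨h1, h2⟩ _
    refine ⟨Module.Finite.of_surjective (LinearMap.fst R P Q) Prod.fst_surjective,
      Module.Projective.of_split (LinearMap.inl R P Q) (LinearMap.fst R P Q) ?_⟩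
    ext x
    simp

/-- `R^(a + b)` is the product -/
def finAdd (R : Type) [Ring R] (a b : ℕ) : ((Fin a → R) × (Fin b → R)) ≃ₗ[R] (Fin (a + b) → R) :=
  (LinearEquiv.sumArrowLequivProdArrow (Fin a) (Fin b) R R).symm.trans
    (LinearEquiv.funCongrLeft R R finSumFinEquiv.symm)

theorem good_SF : Good (fun (P : Type) [AddCommGroup P] [Module R P] => SF R P) where
  iso := by
    rintro P Q _ _ _ _ e ⟨a, b, ⟨h⟩⟩
    exact ⟨a, b, ⟨(LinearEquiv.prodCongr e.symm (LinearEquiv.refl R _)).trans h⟩⟩
  prod := by
    rintro P Q _ _ _ _ ⟨a, b, ⟨h⟩⟩ ⟨c, d, ⟨k⟩⟩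
    refine ⟨a + c, b + d, ⟨?_⟩⟩
    exact (LinearEquiv.prodCongr (LinearEquiv.refl R _) (finAdd R a c).symm).trans
      ((LinearEquiv.prodProdProdComm R P Q (Fin a → R) (Fin c → R)).trans
        ((LinearEquiv.prodCongr h k).trans (finAdd R b d)))
  proj := by
    rintro P _ _ ⟨a, b, ⟨h⟩⟩
    have : Module.Projective R (P × (Fin a → R)) := Module.Projective.of_equiv h.symm
    refine Module.Projective.of_split (LinearMap.inl R P (Fin a → R))
      (LinearMap.fst R P (Fin a → R)) ?_
    ext x
    simp
  zero := by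
    intro P _ _ h
    exact ⟨0, 0, ⟨{
      toFun := fun _ => 0
      invFun := fun _ => 0
      map_add' := fun _ _ => by simp
      map_smul' := fun _ _ => by simp
      left_inv := fun _ => Subsingleton.elim _ _
      right_inv := fun _ => Subsingleton.elim _ _ }⟩⟩
  cancel := by
    rintro P Q _ _ _ _ ⟨a, b, ⟨h⟩⟩ ⟨c, d, ⟨k⟩⟩
    refine ⟨a + d, b + c, ⟨?_⟩⟩
    -- `P × R^(a+d) ≃ P × (R^a × (Q × R^c)) ≃ ((P × Q) × R^a) × R^c`
    let e1 : (P × (Fin (a + d) → R)) ≃ₗ[R] (P × ((Fin a → R) × (Q × (Fin c → R)))) :=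
      LinearEquiv.prodCongr (LinearEquiv.refl R P)
        ((finAdd R a d).symm.trans (LinearEquiv.prodCongr (LinearEquiv.refl R _) k.symm))
    let e2 : (P × ((Fin a → R) × (Q × (Fin c → R)))) ≃ₗ[R]
        (((P × Q) × (Fin a → R)) × (Fin c → R)) :=
      { toFun := fun x => (((x.1, x.2.2.1), x.2.1), x.2.2.2)
        invFun := fun y => (y.1.1.1, (y.1.2, (y.1.1.2, y.2)))
        map_add' := fun _ _ => rfl
        map_smul' := fun _ _ => rfl
        left_inv := fun _ => rfl
        right_inv := fun _ => rfl }
    exact e1.trans (e2.trans ((LinearEquiv.prodCongr h (LinearEquiv.refl R _)).trans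
      (finAdd R b c)))

end

theorem t_TT : S_TT := by
  intro R _
  exact ⟨tt_of_good good_SF, tt_of_good good_PR⟩

end Pool.Agent.K1H16.HE
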